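import Pool.Agent.N502.FR.Stm

/-!
# FR/MAX (helper456): maximal elements of a forest
-/

set_option autoImplicit false

namespace Pool.Agent.N456.FR_MAX

open Pool.Agent.N502.FR Finset

theorem main : S_MAX := by
  classical
  intro P _ _ hP A hA
  have h1 : ∀ a : P, ∃ t : P, a ≤ t ∧ ∀ z, t ≤ z → z = t := by
    intro a
    obtain ⟨t, hat, ht⟩ := Finite.exists_le_maximal (p := fun _ : P => True) (a := a) trivial
    exact ⟨t, hat, fun z hz => le_antisymm (ht.2 trivial hz) hz⟩
  choose t ht1 ht2 using h1
  have h2 : A.card ≤ (univ.filter (fun x : P => ∀ z, x ≤ z → z = x)).card := by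
    refine Finset.card_le_card_of_injOn t ?_ ?_
    · intro a _
      rw [Finset.mem_coe, Finset.mem_filter]
      exact ⟨Finset.mem_univ _, ht2 a⟩
    · intro a ha b hb hab
      by_contra hne
      rcases hP (t a) a b (ht1 a) (by rw [hab]; exact ht1 b) with h | h
      · exact hA ha hb hne h
      · exact hA hb ha (Ne.symm hne) h
  refine h2.trans (le_of_eq ?_)
  apply congrArg Finset.card
  ext x
  simp only [Finset.mem_filter]

end Pool.Agent.N456.FR_MAX
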