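import Mathlib
import Pool.Agent.N604.MW.Stm9

/-!
# Project GS (helper604), task SMEAN (helper456): Borel-Cantelli for the mean value, shifts
-/

set_option autoImplicit false

namespace Pool.Agent.N456.GS

open Finset MeasureTheory Pool.Agent.N604.MW Filter

lemma measurable_SS (d : ℕ) (c b : Fin (d + 1) → ℝ) (θ : Fin (d + 1) → Fin d → ℝ) (B : ℝ)
    (n m : Fin (d + 1) → ℕ) : MeasurableSet (SS d c b θ B n m) := by
  have h1 : IsClosed {t : Fin (d + 1) → ℝ | ∀ i, |t i| ≤ B} := by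
    simp only [Set.ofPred_forall]
    exact isClosed_iInter fun j => isClosed_le (by fun_prop) continuous_const
  have h2 : IsClosed {t : Fin (d + 1) → ℝ | |SD d c b θ t n m| ≤ (d : ℝ) + 1} := by
    refine isClosed_le ?_ continuous_const
    unfold SD PP
    fun_prop
  exact (h1.inter h2).measurableSet

open Classical in
lemma card_eq (d : ℕ) (c b : Fin (d + 1) → ℝ) (θ : Fin (d + 1) → Fin d → ℝ) (B : ℝ) (X : ℕ)
    (t : Fin (d + 1) → ℝ) (ht : ∀ j, |t j| ≤ B) :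
    ((SPairs d c b θ t X).card : ENNReal) =
      ∑ p ∈ SB d X ×ˢ SB d X,
        (SS d c b θ B p.1 p.2).indicator (1 : (Fin (d + 1) → ℝ) → ENNReal) t := by
  unfold SPairs
  rw [card_filter, Nat.cast_sum]
  refine sum_congr rfl fun p _ => ?_
  by_cases hp : |SD d c b θ t p.1 p.2| ≤ (d : ℝ) + 1
  · rw [if_pos hp, Set.indicator_of_mem (show t ∈ SS d c b θ B p.1 p.2 from ⟨ht, hp⟩)]
    simp
  · rw [if_neg hp, Set.indicator_of_notMem (show t ∉ SS d c b θ B p.1 p.2 from fun h => hp h.2)]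
    simp

lemma lintegral_eq (d : ℕ) (c b : Fin (d + 1) → ℝ) (θ : Fin (d + 1) → Fin d → ℝ) (B : ℝ) (X : ℕ) :
    ∫⁻ t : Fin (d + 1) → ℝ, ∑ p ∈ SB d X ×ˢ SB d X,
        (SS d c b θ B p.1 p.2).indicator (1 : (Fin (d + 1) → ℝ) → ENNReal) t =
      ∑ p ∈ SB d X ×ˢ SB d X, volume (SS d c b θ B p.1 p.2) := by
  rw [lintegral_finsetSum]
  · refine sum_congr rfl fun p _ => ?_
    rw [lintegral_indicator_one (measurable_SS d c b θ B p.1 p.2)]
  · intro p _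
    exact measurable_one.indicator (measurable_SS d c b θ B p.1 p.2)

/-- the exceptional set -/
def Ex (d : ℕ) (c b : Fin (d + 1) → ℝ) (θ : Fin (d + 1) → Fin d → ℝ) (B : ℝ) (r : ℕ) (ν : ℕ) :
    Set (Fin (d + 1) → ℝ) :=
  {t | (∀ j, |t j| ≤ B) ∧
    ((2 : ℝ) ^ ν) ^ ((d : ℝ) + 1 + 1 / (r : ℝ)) < ((SPairs d c b θ t (2 ^ ν)).card : ℝ)}

lemma vol_Ex (d : ℕ) (c b : Fin (d + 1) → ℝ) (θ : Fin (d + 1) → Fin d → ℝ) (B C : ℝ) (r : ℕ)
    (X0 : ℕ) (h : ∀ X : ℕ, X0 ≤ X → ∑ p ∈ SB d X ×ˢ SB d X, volume (SS d c b θ B p.1 p.2) ≤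
      ENNReal.ofReal (C * (X : ℝ) ^ (d + 1))) (ν : ℕ) (hν : X0 ≤ ν) :
    volume (Ex d c b θ B r ν) ≤ ENNReal.ofReal (C * ((2 : ℝ) ^ (-(1 / (r : ℝ)))) ^ ν) := by
  set X : ℕ := 2 ^ ν with hX
  have hXR : (X : ℝ) = (2 : ℝ) ^ ν := by rw [hX]; push_cast; rfl
  have hXpos : (0 : ℝ) < (2 : ℝ) ^ ν := by positivity
  set T : ℝ := ((2 : ℝ) ^ ν) ^ ((d : ℝ) + 1 + 1 / (r : ℝ)) with hT
  have hTpos : 0 < T := Real.rpow_pos_of_pos hXpos _
  have hsub : Ex d c b θ B r ν ⊆ {t : Fin (d + 1) → ℝ | ENNReal.ofReal T ≤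
      ∑ p ∈ SB d X ×ˢ SB d X,
        (SS d c b θ B p.1 p.2).indicator (1 : (Fin (d + 1) → ℝ) → ENNReal) t} := by
    rintro t ⟨h1, h2⟩
    simp only [Set.mem_ofPred_eq]
    rw [← card_eq d c b θ B X t h1]
    have e : (((SPairs d c b θ t X).card : ℕ) : ENNReal) =
        ENNReal.ofReal ((SPairs d c b θ t X).card : ℝ) := by
      rw [ENNReal.ofReal_natCast]
    rw [e]
    exact ENNReal.ofReal_le_ofReal h2.le
  have hmeas : Measurable fun t : Fin (d + 1) → ℝ =>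
      ∑ p ∈ SB d X ×ˢ SB d X,
        (SS d c b θ B p.1 p.2).indicator (1 : (Fin (d + 1) → ℝ) → ENNReal) t :=
    Finset.measurable_fun_sum _ fun p _ => measurable_one.indicator (measurable_SS d c b θ B p.1 p.2)
  have h3 := meas_ge_le_lintegral_div (μ := (volume : Measure (Fin (d + 1) → ℝ)))
    hmeas.aemeasurable (ε := ENNReal.ofReal T) (by simpa using hTpos) ENNReal.ofReal_ne_top
  rw [lintegral_eq] at h3
  refine (measure_mono hsub).trans (h3.trans ?_)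
  have h4 := h X (hν.trans Nat.lt_two_pow_self.le)
  calc (∑ p ∈ SB d X ×ˢ SB d X, volume (SS d c b θ B p.1 p.2)) / ENNReal.ofReal T
      ≤ ENNReal.ofReal (C * (X : ℝ) ^ (d + 1)) / ENNReal.ofReal T :=
        ENNReal.div_le_div_right h4 _
    _ = ENNReal.ofReal (C * (X : ℝ) ^ (d + 1) / T) := by
        rw [ENNReal.ofReal_div_of_pos hTpos]
    _ = _ := by
        congr 1
        have e2 : T = ((2 : ℝ) ^ ν) ^ (d + 1) * ((2 : ℝ) ^ ν) ^ (1 / (r : ℝ)) := by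
          rw [hT, Real.rpow_add hXpos]
          congr 1
          have e4 : ((d : ℝ) + 1) = ((d + 1 : ℕ) : ℝ) := by push_cast; rfl
          rw [e4]
          exact Real.rpow_natCast ((2 : ℝ) ^ ν) (d + 1)
        have e3 : ((2 : ℝ) ^ (-(1 / (r : ℝ)))) ^ ν = (((2 : ℝ) ^ ν) ^ (1 / (r : ℝ)))⁻¹ := by
          rw [← Real.rpow_natCast, ← Real.rpow_natCast, ← Real.rpow_mul (by norm_num),
            ← Real.rpow_mul (by norm_num), ← Real.rpow_neg (by norm_num)]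
          congr 1
          ring
        rw [e3, e2, hXR]
        have h5 : ((2 : ℝ) ^ ν) ^ (1 / (r : ℝ)) ≠ 0 := (Real.rpow_pos_of_pos hXpos _).ne'
        field_simp

/-- SMEAN -/
theorem smean (h : S_SSUM) : S_SMEAN := by
  intro d c b θ hd hc
  have key : ∀ B r : ℕ, ∀ᵐ t : Fin (d + 1) → ℝ, ∀ᶠ ν : ℕ in atTop,
      t ∉ Ex d c b θ (B + 1 : ℝ) (r + 1) ν := by
    intro B r
    obtain ⟨C, hC, X0, hs⟩ := h d c b θ (B + 1) hd hc (by positivity)
    have h0 : ∀ᵐ t : Fin (d + 1) → ℝ, ∀ᶠ ν : ℕ in atTop,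
        t ∉ Ex d c b θ (B + 1 : ℝ) (r + 1) (ν + X0) := by
      apply ae_eventually_notMem
      have h1 : ∀ ν, volume (Ex d c b θ (B + 1 : ℝ) (r + 1) (ν + X0)) ≤
          ENNReal.ofReal (C * ((2 : ℝ) ^ (-(1 / ((r + 1 : ℕ) : ℝ)))) ^ (ν + X0)) :=
        fun ν => vol_Ex d c b θ (B + 1) C (r + 1) X0 hs (ν + X0) (Nat.le_add_left _ _)
      have hq : (2 : ℝ) ^ (-(1 / ((r + 1 : ℕ) : ℝ))) < 1 := by
        apply Real.rpow_lt_one_of_one_lt_of_neg (by norm_num)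
        have : (0 : ℝ) < 1 / ((r + 1 : ℕ) : ℝ) := by positivity
        linarith
      have hsum : Summable fun ν : ℕ => C * ((2 : ℝ) ^ (-(1 / ((r + 1 : ℕ) : ℝ)))) ^ (ν + X0) :=
        ((summable_geometric_of_lt_one (by positivity) hq).mul_left C).comp_injective
          (add_left_injective X0)
      exact ne_top_of_le_ne_top hsum.tsum_ofReal_ne_top (ENNReal.tsum_le_tsum h1)
    filter_upwards [h0] with t ht
    obtain ⟨ν0, hν0⟩ := eventually_atTop.1 ht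
    filter_upwards [eventually_ge_atTop (ν0 + X0)] with ν hν
    have h2 := hν0 (ν - X0) (by omega)
    rwa [Nat.sub_add_cancel (by omega)] at h2
  have key2 : ∀ᵐ t : Fin (d + 1) → ℝ, ∀ B r : ℕ, ∀ᶠ ν : ℕ in atTop,
      t ∉ Ex d c b θ (B + 1 : ℝ) (r + 1) ν := by
    rw [ae_all_iff]
    intro B
    rw [ae_all_iff]
    exact key B
  filter_upwards [key2] with t ht ε hε
  obtain ⟨B, hB⟩ : ∃ B : ℕ, ∀ j, |t j| ≤ B := by
    obtain ⟨B, hB⟩ := exists_nat_ge (∑ j, |t j|)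
    exact ⟨B, fun j => (single_le_sum (fun i _ => abs_nonneg (t i)) (mem_univ j)).trans hB⟩
  obtain ⟨r, hr⟩ := exists_nat_one_div_lt hε
  obtain ⟨ν0, h0⟩ := eventually_atTop.1 (ht B r)
  refine ⟨ν0, fun ν hν => ?_⟩
  have h1 := h0 ν hν
  simp only [Ex, Set.mem_ofPred_eq, not_and, not_lt] at h1
  have h2 := h1 (fun j => (hB j).trans (by linarith))
  refine h2.trans ?_
  apply Real.rpow_le_rpow_of_exponent_le (one_le_pow₀ (by norm_num))
  push_cast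
  linarith

end Pool.Agent.N456.GS
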