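import Pool.Agent.N576.MX2.D

/-!
# Project MX2, tasks LINALG and GROUP (helper456)
-/

set_option autoImplicit false

namespace Pool.Agent.N456.MX2

open Pool.Agent.N576.MX2 Module

/-- an integer vector as a rational vector -/
def cq (z : Fin 4 → ℤ) : Fin 4 → ℚ := fun k => (z k : ℚ)

theorem cq_inj {z z' : Fin 4 → ℤ} (h : cq z = cq z') : z = z' := by
  funext k
  have := congrFun h k
  unfold cq at this
  exact_mod_cast this

/-- the value of the linear form -/
def Lf (w : Fin 4 → ℝ) (z : Fin 4 → ℤ) : ℝ := ∑ k, w k * z k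

theorem key (K D : ℝ) (hK : 1 ≤ K) (hD : 0 ≤ D) (w : Fin 4 → ℝ) (T : Set (Fin 4 → ℚ))
    (hT : ∀ x ∈ T, ∃ z : Fin 4 → ℤ, x = cq z ∧ (∀ k, |(z k : ℝ)| ≤ K) ∧ |Lf w z| ≤ D)
    (y : Fin 4 → ℤ) (hy : ∀ k, |(y k : ℝ)| ≤ K) (hyT : cq y ∈ Submodule.span ℚ T) :
    |Lf w y| ≤ 96 * K ^ 4 * D := by
  classical
  obtain ⟨b1, hb1T, -, hTb1, hli1⟩ :=
    exists_linearIndepOn_id_extension (K := ℚ) (V := Fin 4 → ℚ) (linearIndepOn_empty ℚ id)
      (Set.empty_subset T)
  obtain ⟨b2, hb2, hb12, hsp, hli2⟩ :=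
    exists_linearIndepOn_id_extension hli1
      (Set.subset_union_left : b1 ⊆ b1 ∪ Set.range fun k : Fin 4 => cq (Pi.single k 1))
  have htop : ⊤ ≤ Submodule.span ℚ (Set.range fun x : b2 => id (x : Fin 4 → ℚ)) := by
    have e1 : (Set.range fun x : b2 => id (x : Fin 4 → ℚ)) = b2 := by
      ext x
      simp
    rw [e1]
    rw [← (Pi.basisFun ℚ (Fin 4)).span_eq, Submodule.span_le]
    rintro x ⟨k, rfl⟩
    refine hsp (Or.inr ⟨k, ?_⟩)
    funext l
    rw [Pi.basisFun_apply]
    unfold cq
    by_cases h : l = k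
    · subst h
      simp
    · simp [Pi.single_eq_of_ne h]
  let B : Basis b2 ℚ (Fin 4 → ℚ) := Basis.mk hli2 htop
  let e : b2 ≃ Fin 4 := B.indexEquiv (Pi.basisFun ℚ (Fin 4))
  let B' : Basis (Fin 4) ℚ (Fin 4 → ℚ) := B.reindex e
  have hB' : ∀ j, B' j = ((e.symm j : b2) : Fin 4 → ℚ) := by
    intro j
    show (B.reindex e) j = _
    rw [Basis.reindex_apply]
    show (Basis.mk hli2 htop) (e.symm j) = _
    rw [Basis.mk_apply]
    rfl
  have hrow : ∀ j, ∃ z : Fin 4 → ℤ, B' j = cq z ∧ (∀ k, |(z k : ℝ)| ≤ K) ∧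
      (B' j ∈ b1 → |Lf w z| ≤ D) := by
    intro j
    by_cases hj : B' j ∈ b1
    · obtain ⟨z, h1, h2, h3⟩ := hT _ (hb1T hj)
      exact ⟨z, h1, h2, fun _ => h3⟩
    · have h1 : B' j ∈ b2 := by
        rw [hB']
        exact (e.symm j).2
      rcases hb2 h1 with h2 | ⟨k, hk⟩
      · exact absurd h2 hj
      · refine ⟨Pi.single k 1, hk.symm, fun l => ?_, fun h => absurd h hj⟩
        by_cases h : l = k
        · subst h
          simpa using hK
        · rw [Pi.single_eq_of_ne h]
          simp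
          linarith
  choose z hz1 hz2 hz3 using hrow
  let M : Matrix (Fin 4) (Fin 4) ℤ := Matrix.of fun k j => z j k
  have hdet : M.det ≠ 0 := by
    have h1 : LinearIndependent ℚ (M.map (Int.castRingHom ℚ)).col := by
      have h2 : (M.map (Int.castRingHom ℚ)).col = B' := by
        funext j k
        rw [hz1 j]
        rfl
      rw [h2]
      exact B'.linearIndependent
    have h3 := Matrix.linearIndependent_cols_iff_isUnit.1 h1
    rw [Matrix.isUnit_iff_isUnit_det] at h3
    intro h0
    have h4 : (M.map (Int.castRingHom ℚ)).det = ((M.det : ℤ) : ℚ) := by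
      rw [Int.cast_det]
      rfl
    rw [h4, h0, Int.cast_zero] at h3
    exact not_isUnit_zero h3
  have hcr := Matrix.mulVec_cramer M y
  set Cc : Fin 4 → ℤ := Matrix.cramer M y with hCc
  -- the equation
  have heq : ∀ k, ∑ j, Cc j * z j k = M.det * y k := by
    intro k
    have h1 := congrFun hcr k
    rw [Pi.smul_apply, smul_eq_mul] at h1
    rw [← h1]
    unfold Matrix.mulVec dotProduct
    exact Finset.sum_congr rfl fun j _ => mul_comm _ _
  have hbd : ∀ j, |((Cc j : ℤ) : ℝ)| ≤ 24 * K ^ 4 := by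
    intro j
    have h1 : ((Cc j : ℤ) : ℝ) = ((M.updateCol j y).map (fun x : ℤ => (x : ℝ))).det := by
      rw [hCc, Matrix.cramer_apply, Int.cast_det]
    rw [h1]
    have h2 := Matrix.det_le (A := (M.updateCol j y).map (fun x : ℤ => (x : ℝ)))
      (abv := AbsoluteValue.abs) (x := K) (by
        intro a c
        rw [Matrix.map_apply, Matrix.updateCol_apply]
        show |((if c = j then y a else M a c : ℤ) : ℝ)| ≤ K
        split_ifs
        · exact hy a
        · exact hz2 c a)
    rw [Fintype.card_fin, nsmul_eq_mul] at h2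
    have h3 : ((Nat.factorial 4 : ℕ) : ℝ) = 24 := by
      norm_num [Nat.factorial]
    rw [h3] at h2
    exact h2
  have hzero : ∀ j, B' j ∉ b1 → Cc j = 0 := by
    intro j hj
    have h1 : ∑ l, ((Cc l : ℤ) : ℚ) • B' l = ((M.det : ℤ) : ℚ) • cq y := by
      funext k
      rw [Finset.sum_apply, Pi.smul_apply, smul_eq_mul]
      have h2 : ∀ l, (((Cc l : ℤ) : ℚ) • B' l) k = ((Cc l : ℤ) : ℚ) * ((z l k : ℤ) : ℚ) := by
        intro l
        rw [Pi.smul_apply, smul_eq_mul, hz1 l]
        rfl
      simp only [h2]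
      unfold cq
      exact_mod_cast heq k
    have h2 := congrArg (fun x => B'.repr x j) h1
    simp only [Basis.repr_sum_self] at h2
    rw [map_smul, Finsupp.smul_apply, smul_eq_mul] at h2
    have h3 : cq y ∈ Submodule.span ℚ (B' '' {l | B' l ∈ b1}) := by
      have e1 : B' '' {l | B' l ∈ b1} = b1 := by
        ext x
        constructor
        · rintro ⟨l, hl, rfl⟩
          exact hl
        · intro hx
          have h4 : B' (e ⟨x, hb12 hx⟩) = x := by
            rw [hB', Equiv.symm_apply_apply]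
          exact ⟨e ⟨x, hb12 hx⟩, by
            show B' (e ⟨x, hb12 hx⟩) ∈ b1
            rw [h4]
            exact hx, h4⟩
      rw [e1]
      exact (Submodule.span_le.2 hTb1) hyT
    rw [B'.mem_span_image] at h3
    have h4 : B'.repr (cq y) j = 0 := by
      by_contra h
      exact hj (h3 (Finsupp.mem_support_iff.2 h))
    rw [h4, mul_zero] at h2
    exact_mod_cast h2
  -- the linear form
  have hL : (M.det : ℝ) * Lf w y = ∑ j, ((Cc j : ℤ) : ℝ) * Lf w (z j) := by
    unfold Lf
    rw [Finset.mul_sum]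
    simp only [Finset.mul_sum]
    rw [Finset.sum_comm]
    refine Finset.sum_congr rfl fun k _ => ?_
    have h1 : (∑ j, ((Cc j : ℤ) : ℝ) * ((z j k : ℤ) : ℝ)) = (M.det : ℝ) * (y k : ℝ) := by
      exact_mod_cast heq k
    calc (M.det : ℝ) * (w k * (y k : ℝ)) = w k * ((M.det : ℝ) * (y k : ℝ)) := by ring
      _ = w k * ∑ j, ((Cc j : ℤ) : ℝ) * ((z j k : ℤ) : ℝ) := by rw [h1]
      _ = _ := by
        rw [Finset.mul_sum]
        exact Finset.sum_congr rfl fun j _ => by ring
  have hd1 : (1 : ℝ) ≤ |(M.det : ℝ)| := by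
    have h1 : (1 : ℤ) ≤ |M.det| := Int.one_le_abs hdet
    exact_mod_cast h1
  have h5 : |∑ j, ((Cc j : ℤ) : ℝ) * Lf w (z j)| ≤ ∑ _j : Fin 4, 24 * K ^ 4 * D := by
    refine (Finset.abs_sum_le_sum_abs _ _).trans (Finset.sum_le_sum fun j _ => ?_)
    have hK4 : 0 ≤ 24 * K ^ 4 := by positivity
    by_cases hj : B' j ∈ b1
    · rw [abs_mul]
      exact mul_le_mul (hbd j) (hz3 j hj) (abs_nonneg _) hK4
    · rw [hzero j hj, Int.cast_zero, zero_mul, abs_zero]
      exact mul_nonneg hK4 hD
  rw [← hL, abs_mul] at h5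
  have h6 : ∑ _j : Fin 4, 24 * K ^ 4 * D = 96 * K ^ 4 * D := by
    rw [Finset.sum_const, Finset.card_univ, Fintype.card_fin, nsmul_eq_mul]
    push_cast
    ring
  rw [h6] at h5
  calc |Lf w y| = 1 * |Lf w y| := (one_mul _).symm
    _ ≤ |(M.det : ℝ)| * |Lf w y| := mul_le_mul_of_nonneg_right hd1 (abs_nonneg _)
    _ ≤ _ := h5

theorem linalg : LINALG := by
  intro n v w δ K hK hv hδ hδ0 hL hn
  classical
  let S : ℕ → Set (Fin 4 → ℚ) := fun i => (fun j => cq (v j)) '' {j | i ≤ j ∧ j < n}
  let dm : ℕ → ℕ := fun i => finrank ℚ (Submodule.span ℚ (S i))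
  have hS : ∀ i i', i ≤ i' → S i' ⊆ S i := by
    rintro i i' h x ⟨j, ⟨h1, h2⟩, rfl⟩
    exact ⟨j, ⟨h.trans h1, h2⟩, rfl⟩
  have hdm : ∀ i i', i ≤ i' → dm i' ≤ dm i := fun i i' h =>
    Submodule.finrank_mono (Submodule.span_mono (hS i i' h))
  have hdm4 : ∀ i, dm i ≤ 4 := by
    intro i
    have h1 := Submodule.finrank_le (Submodule.span ℚ (S i))
    rw [finrank_fin_fun] at h1
    exact h1
  -- pigeonhole
  obtain ⟨r, hr⟩ : ∃ r, n ≤ 5 * ((Finset.range n).filter fun i => dm i = r).card := by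
    by_contra hcon
    push Not at hcon
    have h1 := Finset.card_eq_sum_card_fiberwise (s := Finset.range n) (t := Finset.range 5)
      (f := dm) (fun i _ => Finset.mem_coe.2 (Finset.mem_range.2 (Nat.lt_succ_of_le (hdm4 i))))
    rw [Finset.card_range] at h1
    simp only [Finset.sum_range_succ, Finset.sum_range_zero] at h1
    have a0 := hcon 0
    have a1 := hcon 1
    have a2 := hcon 2
    have a3 := hcon 3
    have a4 := hcon 4
    omega
  set F : Finset ℕ := (Finset.range n).filter fun i => dm i = r with hF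
  have hne : F.Nonempty := by
    rw [← Finset.card_pos]
    omega
  set a := F.min' hne with ha
  set b := F.max' hne with hb
  have haF : a ∈ F := F.min'_mem hne
  have hbF : b ∈ F := F.max'_mem hne
  have hab : a ≤ b := F.min'_le _ hbF
  rw [hF, Finset.mem_filter, Finset.mem_range] at haF hbF
  have hcard : F.card ≤ b + 1 - a := by
    have h1 : F ⊆ Finset.Icc a b := by
      intro x hx
      rw [Finset.mem_Icc]
      exact ⟨F.min'_le _ hx, F.le_max' _ hx⟩
    have h2 := Finset.card_le_card h1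
    rwa [Nat.card_Icc] at h2
  refine ⟨a, b, hab, hbF.1, by omega, fun i hai hib => ?_⟩
  have hin : i < n := by omega
  have hd : dm i = dm b := by
    have h1 := hdm a i hai
    have h2 := hdm i b hib
    omega
  have hspan : Submodule.span ℚ (S b) = Submodule.span ℚ (S i) :=
    Submodule.eq_of_le_of_finrank_eq (Submodule.span_mono (hS i b hib)) hd.symm
  refine key K (δ b) hK (hδ0 b hbF.1) w (S b) ?_ (v i) (fun k => hv i k hin) ?_
  · rintro x ⟨j, ⟨hbj, hjn⟩, rfl⟩
    exact ⟨v j, rfl, fun k => hv j k hjn, (hL j hjn).trans (hδ b j hbj hjn)⟩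
  · rw [hspan]
    exact Submodule.subset_span ⟨i, ⟨le_refl _, hin⟩, rfl⟩

theorem group : GROUP := by
  intro N K s c R hK hc hc1 hR hs hsR hN
  have hK0 : (1 : ℝ) ≤ K := by exact_mod_cast hK
  have hlR : 0 ≤ Real.log R := Real.log_nonneg hR
  have hq : 0 ≤ 2 * Real.log R / c := by positivity
  have hN3 : (3 : ℝ) ≤ N := by nlinarith
  have hN3' : 3 ≤ N := by exact_mod_cast hN3
  have hmono : ∀ d i, i + d ≤ N → s i + d ≤ s (i + d) := by
    intro d
    induction d with
    | zero => intro i _; simp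
    | succ d ih =>
      intro i hi
      have h1 := ih i (by omega)
      have h2 := hs (i + d) (by omega)
      rw [← add_assoc]
      push_cast
      linarith
  by_contra hcon
  push Not at hcon
  have hone : ∀ i, i < N → 1 ≤ s N - s i := by
    intro i hi
    have h1 := hmono (N - i) i (by omega)
    rw [Nat.add_sub_cancel' hi.le] at h1
    have h2 : (1 : ℝ) ≤ ((N - i : ℕ) : ℝ) := by
      exact_mod_cast (by omega : 1 ≤ N - i)
    linarith
  have hstep : ∀ i, i + K < N → (1 + c) * (s N - s (i + K)) ≤ s N - s i := by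
    intro i hi
    have h1 := hone (i + K) hi
    by_contra h
    push Not at h
    have h2 := hcon i hi.le (by nlinarith)
    linarith
  have hpow : ∀ J, J * K < N → (1 + c) ^ J * (s N - s (J * K)) ≤ s N - s 0 := by
    intro J
    induction J with
    | zero => intro _; simp
    | succ J ih =>
      intro hJ
      have e : (J + 1) * K = J * K + K := by ring
      rw [e] at hJ ⊢
      have h1 := ih (by omega)
      have h2 := hstep (J * K) hJ
      have h3 : (0 : ℝ) ≤ (1 + c) ^ J := by positivity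
      have h4 := mul_le_mul_of_nonneg_left h2 h3
      rw [pow_succ]
      calc (1 + c) ^ J * (1 + c) * (s N - s (J * K + K)) =
          (1 + c) ^ J * ((1 + c) * (s N - s (J * K + K))) := by ring
        _ ≤ _ := h4.trans h1
  set J := (N - 1) / K with hJ
  have hJ1 : J * K < N := by
    have h1 := Nat.div_mul_le_self (N - 1) K
    rw [← hJ] at h1
    omega
  have hJ2 : N ≤ (J + 1) * K := by
    have h1 := Nat.lt_div_mul_add (a := N - 1) (show 0 < K by omega)
    rw [← hJ] at h1
    have e : (J + 1) * K = J * K + K := by ring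
    omega
  have hJ3 : 2 + 2 * Real.log R / c ≤ J := by
    have h1 : (N : ℝ) ≤ ((J : ℝ) + 1) * K := by exact_mod_cast hJ2
    have h2 : (K : ℝ) * (3 + 2 * Real.log R / c) ≤ K * ((J : ℝ) + 1) := by linarith
    have h3 := le_of_mul_le_mul_left h2 (by linarith)
    linarith
  have h1 := hpow J hJ1
  have h2 := hone _ hJ1
  have h3 : (0 : ℝ) < (1 + c) ^ J := by positivity
  have h4 : (1 + c) ^ J ≤ R := by nlinarith
  have h5 : (J : ℝ) * Real.log (1 + c) ≤ Real.log R := by
    rw [← Real.log_pow]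
    exact Real.log_le_log h3 h4
  have h6 : c / 2 ≤ Real.log (1 + c) := by
    have h7 := Real.one_sub_inv_le_log_of_pos (show 0 < 1 + c by linarith)
    refine le_trans ?_ h7
    rw [le_sub_iff_add_le, ← le_sub_iff_add_le', inv_le_comm₀ (by linarith) (by linarith)]
    rw [inv_le_comm₀ (by linarith) (by linarith), inv_eq_one_div, div_le_iff₀ (by linarith)]
    nlinarith
  have h7 : (2 + 2 * Real.log R / c) * (c / 2) ≤ Real.log R := by
    refine le_trans ?_ h5
    exact mul_le_mul hJ3 h6 (by linarith) (Nat.cast_nonneg _)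
  have h8 : (2 + 2 * Real.log R / c) * (c / 2) = c + Real.log R := by
    field_simp
  linarith

end Pool.Agent.N456.MX2
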