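import Pool.Agent.N657.QR.Stm

/-!
# Project QR (helper657), part RPS (subtask 5174), by helper456: reflection positivity for two layers

The wave function of the two layers is viewed as a matrix; all terms of the energy are values of
`sh T u v = ⟨T, shift by (u, v) T⟩`.
-/

set_option autoImplicit false
set_option linter.all false

namespace Pool.Agent.N456.QR

open Pool.Agent.N657.QR hiding sq

section forms

variable {A : Type} [Fintype A] [DecidableEq A]

/-- the form of a shift -/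
noncomputable def sh (T : (A → ℤ) → (A → ℤ) → ℝ) (u v : A → ℤ) : ℝ :=
  ∑' z : (A → ℤ) × (A → ℤ), T (z.1 + u) (z.2 + v) * T z.1 z.2

/-- the first potential energy -/
noncomputable def s1 (T : (A → ℤ) → (A → ℤ) → ℝ) : ℝ :=
  ∑' z : (A → ℤ) × (A → ℤ), N657.QR.sq z.1 * T z.1 z.2 ^ 2

/-- the second potential energy -/
noncomputable def s2 (T : (A → ℤ) → (A → ℤ) → ℝ) : ℝ :=
  ∑' z : (A → ℤ) × (A → ℤ), N657.QR.sq z.2 * T z.1 z.2 ^ 2

omit [Fintype A] [DecidableEq A] in
lemma fin_sum {T : (A → ℤ) → (A → ℤ) → ℝ} (hT : fs2 T) (F : (A → ℤ) × (A → ℤ) → ℝ)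
    (hF : ∀ z, T z.1 z.2 = 0 → F z = 0) : Summable F := by
  refine summable_of_hasFiniteSupport (Set.Finite.subset hT ?_)
  intro z hz
  rw [Function.mem_support] at hz ⊢
  exact fun h => hz (hF z h)

omit [Fintype A] [DecidableEq A] in
lemma sh_neg (T : (A → ℤ) → (A → ℤ) → ℝ) (u v : A → ℤ) : sh T (-u) (-v) = sh T u v := by
  unfold sh
  rw [← (Equiv.addRight ((u, v) : (A → ℤ) × (A → ℤ))).tsum_eq]
  refine tsum_congr fun z => ?_
  simp only [Equiv.coe_addRight, Prod.fst_add, Prod.snd_add, add_neg_cancel_right]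
  ring

omit [Fintype A] [DecidableEq A] in
lemma sh_swap {T : (A → ℤ) → (A → ℤ) → ℝ} (hs : ∀ p q, T p q = T q p) (u v : A → ℤ) :
    sh T u v = sh T v u := by
  unfold sh
  rw [← (Equiv.prodComm (A → ℤ) (A → ℤ)).tsum_eq]
  refine tsum_congr fun z => ?_
  simp only [Equiv.prodComm_apply, Prod.fst_swap, Prod.snd_swap]
  rw [hs (z.2 + u), hs z.2]

omit [DecidableEq A] in
lemma s_swap {T : (A → ℤ) → (A → ℤ) → ℝ} (hs : ∀ p q, T p q = T q p) : s2 T = s1 T := by
  unfold s1 s2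
  rw [← (Equiv.prodComm (A → ℤ) (A → ℤ)).tsum_eq]
  refine tsum_congr fun z => ?_
  simp only [Equiv.prodComm_apply, Prod.fst_swap, Prod.snd_swap]
  rw [hs z.2]

omit [Fintype A] [DecidableEq A] in
lemma cross {T : (A → ℤ) → (A → ℤ) → ℝ} (hT : fs2 T) {ι : Type} [Fintype ι] (c d : ι → ℝ)
    (η ζ : ι → A → ℤ) :
    (∑' z : (A → ℤ) × (A → ℤ), T z.1 z.2 * ∑ i, ∑ j, c i * d j * T (z.1 + η i) (z.2 + ζ j)) =
      ∑ i, ∑ j, c i * d j * sh T (η i) (ζ j) := by
  have h1 : ∀ z : (A → ℤ) × (A → ℤ),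
      T z.1 z.2 * ∑ i, ∑ j, c i * d j * T (z.1 + η i) (z.2 + ζ j) =
        ∑ i, ∑ j, c i * d j * (T (z.1 + η i) (z.2 + ζ j) * T z.1 z.2) := by
    intro z
    rw [Finset.mul_sum]
    refine Finset.sum_congr rfl fun i _ => ?_
    rw [Finset.mul_sum]
    refine Finset.sum_congr rfl fun j _ => ?_
    ring
  rw [tsum_congr h1, Summable.tsum_finsetSum]
  · refine Finset.sum_congr rfl fun i _ => ?_
    rw [Summable.tsum_finsetSum]
    · refine Finset.sum_congr rfl fun j _ => ?_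
      rw [tsum_mul_left]
      rfl
    · intro j _
      exact fin_sum hT _ fun z hz => by rw [hz, mul_zero, mul_zero]
  · intro i _
    refine fin_sum hT _ fun z hz => Finset.sum_eq_zero fun j _ => ?_
    rw [hz, mul_zero, mul_zero]

/-! ### Two layers -/

/-- configurations of two layers are pairs of configurations -/
def ev : ((A → ℤ) × (A → ℤ)) ≃ (A × Bool → ℤ) where
  toFun z x := if x.2 then - z.2 x.1 else z.1 x.1
  invFun n := (fun a => n (a, false), fun a => - n (a, true))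
  left_inv z := by
    refine Prod.ext ?_ ?_
    · funext a
      simp
    · funext a
      simp
  right_inv n := by
    funext x
    obtain ⟨a, b⟩ := x
    cases b <;> simp

omit [Fintype A] in
lemma ev_addf (z : (A → ℤ) × (A → ℤ)) (a : A) :
    ev z + dl (a, false) = ev (z.1 + dl a, z.2) := by
  funext x
  obtain ⟨b, s⟩ := x
  cases s <;> simp [ev, dl, Pi.single_apply]

omit [Fintype A] in
lemma ev_addt (z : (A → ℤ) × (A → ℤ)) (a : A) :
    ev z + dl (a, true) = ev (z.1, z.2 - dl a) := by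
  funext x
  obtain ⟨b, s⟩ := x
  cases s
  · simp [ev, dl, Pi.single_apply]
  · simp [ev, dl, Pi.single_apply]
    ring

omit [Fintype A] in
lemma ev_subf (z : (A → ℤ) × (A → ℤ)) (a : A) :
    ev z - dl (a, false) = ev (z.1 - dl a, z.2) := by
  funext x
  obtain ⟨b, s⟩ := x
  cases s <;> simp [ev, dl, Pi.single_apply]

omit [Fintype A] in
lemma ev_subt (z : (A → ℤ) × (A → ℤ)) (a : A) :
    ev z - dl (a, true) = ev (z.1, z.2 + dl a) := by
  funext x
  obtain ⟨b, s⟩ := x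
  cases s
  · simp [ev, dl, Pi.single_apply]
  · simp [ev, dl, Pi.single_apply]
    ring

/-- the wave function of a matrix -/
def ps (T : (A → ℤ) → (A → ℤ) → ℝ) (n : A × Bool → ℤ) : ℝ := T (ev.symm n).1 (ev.symm n).2

omit [Fintype A] [DecidableEq A] in
lemma ps_ev (T : (A → ℤ) → (A → ℤ) → ℝ) (z : (A → ℤ) × (A → ℤ)) : ps T (ev z) = T z.1 z.2 := by
  simp [ps]

omit [Fintype A] [DecidableEq A] in
lemma fs_ps {T : (A → ℤ) → (A → ℤ) → ℝ} (hT : fs2 T) : fs (ps T) := by
  refine Set.Finite.subset (Set.Finite.image ev hT) ?_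
  intro n hn
  refine ⟨ev.symm n, ?_, Equiv.apply_symm_apply _ _⟩
  exact hn

lemma cr_ff (T : (A → ℤ) → (A → ℤ) → ℝ) (a a' : A) :
    cr (a, false) (a', false) (ps T) = sh T (dl a - dl a') 0 := by
  unfold cr sh
  rw [← (ev (A := A)).tsum_eq]
  refine tsum_congr fun z => ?_
  unfold hp
  rw [ev_addf, ev_subf, ps_ev, ps_ev, add_zero, add_sub_assoc]

lemma cr_tt (T : (A → ℤ) → (A → ℤ) → ℝ) (a a' : A) :
    cr (a, true) (a', true) (ps T) = sh T 0 (dl a' - dl a) := by
  unfold cr sh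
  rw [← (ev (A := A)).tsum_eq]
  refine tsum_congr fun z => ?_
  unfold hp
  rw [ev_addt, ev_subt, ps_ev, ps_ev, add_zero]
  simp only
  rw [sub_add_eq_add_sub, add_sub_assoc]

lemma cr_ft (T : (A → ℤ) → (A → ℤ) → ℝ) (a : A) :
    cr (a, false) (a, true) (ps T) = sh T (dl a) (dl a) := by
  unfold cr sh
  rw [← (ev (A := A)).tsum_eq]
  refine tsum_congr fun z => ?_
  unfold hp
  rw [ev_addf, ev_subt, ps_ev, ps_ev]

lemma xx_f (T : (A → ℤ) → (A → ℤ) → ℝ) (a : A) : xx (a, false) (ps T) = sh T (dl a) 0 := by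
  unfold xx sh
  rw [← (ev (A := A)).tsum_eq]
  refine tsum_congr fun z => ?_
  rw [ev_addf, ps_ev, ps_ev, add_zero]

lemma xx_t (T : (A → ℤ) → (A → ℤ) → ℝ) (a : A) : xx (a, true) (ps T) = sh T 0 (dl a) := by
  rw [← sh_neg T 0 (dl a)]
  unfold xx sh
  rw [← (ev (A := A)).tsum_eq]
  refine tsum_congr fun z => ?_
  rw [ev_addt, ps_ev, ps_ev, neg_zero, add_zero, sub_eq_add_neg]

omit [DecidableEq A] in
lemma sq_ev (z : (A → ℤ) × (A → ℤ)) :
    N657.QR.sq (ev z) = N657.QR.sq z.1 + N657.QR.sq z.2 := by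
  unfold N657.QR.sq
  rw [Fintype.sum_prod_type, ← Finset.sum_add_distrib]
  refine Finset.sum_congr rfl fun a _ => ?_
  rw [Fintype.sum_bool]
  simp [ev, add_comm]

omit [Fintype A] [DecidableEq A] in
lemma nr_ps (T : (A → ℤ) → (A → ℤ) → ℝ) : nr (ps T) = sh T 0 0 := by
  unfold nr sh
  rw [← (ev (A := A)).tsum_eq]
  refine tsum_congr fun z => ?_
  rw [ps_ev, add_zero, add_zero, pow_two]

/-- the energy of one layer -/
noncomputable def L1 (U : ℝ) (w : A → A → ℝ) (k : A → ℝ) (T : (A → ℤ) → (A → ℤ) → ℝ) : ℝ :=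
  U * s1 T - (∑ a, ∑ a', w a a' * sh T (dl a - dl a') 0) - ∑ a, k a * sh T (dl a) 0

/-- the energy of the other layer -/
noncomputable def L2 (U : ℝ) (w : A → A → ℝ) (k : A → ℝ) (T : (A → ℤ) → (A → ℤ) → ℝ) : ℝ :=
  U * s2 T - (∑ a, ∑ a', w a a' * sh T 0 (dl a - dl a')) - ∑ a, k a * sh T 0 (dl a)

lemma KK_ps {T : (A → ℤ) → (A → ℤ) → ℝ} (hT : fs2 T) (U : ℝ) (w : A → A → ℝ) (κ : A → ℝ)
    (k : A × Bool → ℝ) : KK U w κ k (ps T) = L1 U w (fun a => k (a, false)) T +
      L2 U w (fun a => k (a, true)) T - ∑ a, κ a * sh T (dl a) (dl a) := by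
  unfold KK L1 L2
  have h1 : (∑' n, N657.QR.sq n * ps T n ^ 2) = s1 T + s2 T := by
    unfold s1 s2
    rw [← (ev (A := A)).tsum_eq, ← Summable.tsum_add]
    · refine tsum_congr fun z => ?_
      rw [ps_ev, sq_ev, add_mul]
    · exact fin_sum hT _ fun z hz => by rw [hz]; ring
    · exact fin_sum hT _ fun z hz => by rw [hz]; ring
  have h2 : (∑ a, ∑ a', w a a' * (cr (a, false) (a', false) (ps T) +
      cr (a, true) (a', true) (ps T))) = (∑ a, ∑ a', w a a' * sh T (dl a - dl a') 0) +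
        ∑ a, ∑ a', w a a' * sh T 0 (dl a - dl a') := by
    rw [← Finset.sum_add_distrib]
    refine Finset.sum_congr rfl fun a _ => ?_
    rw [← Finset.sum_add_distrib]
    refine Finset.sum_congr rfl fun a' _ => ?_
    rw [cr_ff, cr_tt, mul_add, ← sh_neg T 0 (dl a' - dl a), neg_zero, neg_sub]
  have h3 : (∑ x, k x * xx x (ps T)) = (∑ a, k (a, true) * sh T 0 (dl a)) +
      ∑ a, k (a, false) * sh T (dl a) 0 := by
    rw [Fintype.sum_prod_type, ← Finset.sum_add_distrib]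
    refine Finset.sum_congr rfl fun a _ => ?_
    rw [Fintype.sum_bool, xx_t, xx_f]
  have h4 : (∑ a, κ a * cr (a, false) (a, true) (ps T)) = ∑ a, κ a * sh T (dl a) (dl a) :=
    Finset.sum_congr rfl fun a _ => by rw [cr_ft]
  rw [h1, h2, h3, h4]
  ring

lemma L2_symm {T : (A → ℤ) → (A → ℤ) → ℝ} (hs : ∀ p q, T p q = T q p) (U : ℝ) (w : A → A → ℝ)
    (k : A → ℝ) : L2 U w k T = L1 U w k T := by
  unfold L1 L2
  rw [s_swap hs]
  congr 1
  · congr 1
    refine Finset.sum_congr rfl fun a _ => Finset.sum_congr rfl fun a' _ => ?_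
    rw [sh_swap hs]
  · refine Finset.sum_congr rfl fun a _ => ?_
    rw [sh_swap hs]

end forms

/-- **reflection positivity for two layers** -/
theorem main (hB : S_BAS) (h : S_FSH) : S_RPS := by
  intro A _ _ U w κ η kf kt E E' hκ hE hE' ψ hψ
  set M : (A → ℤ) → (A → ℤ) → ℝ := fun p q => ψ (ev (p, q)) with hM
  have hψM : ψ = ps M := by
    funext n
    show ψ n = ψ (ev ((ev.symm n).1, (ev.symm n).2))
    rw [Prod.mk.eta, Equiv.apply_symm_apply]
  have hMf : fs2 M := by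
    have h1 : (Function.support (fun z : (A → ℤ) × (A → ℤ) => M z.1 z.2)) =
        ev ⁻¹' (Function.support ψ) := rfl
    unfold fs2
    rw [h1]
    exact Set.Finite.preimage ev.injective.injOn hψ
  obtain ⟨P, Q, hPf, hQf, hPs, hQs, -, -, hL1, hL2, hX⟩ := h (V := A) (γ := Unit) M
    (fun _ => ()) (fun _ => ()) Set.univ Set.univ hMf
    (fun _ _ _ => ⟨Set.mem_univ _, Set.mem_univ _, rfl⟩)
  have eP : ∀ u, sh M u 0 = sh P u 0 := by
    intro u
    have := hL1 (fun _ => 1) u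
    simp only [one_mul] at this
    unfold sh
    simp only [add_zero]
    exact this
  have eQ : ∀ u, sh M 0 u = sh Q u 0 := by
    intro u
    have := hL2 (fun _ => 1) u
    simp only [one_mul] at this
    unfold sh
    simp only [add_zero]
    exact this
  have sP : s1 M = s1 P := by
    have := hL1 N657.QR.sq 0
    simp only [add_zero, ← pow_two] at this
    exact this
  have sQ : s2 M = s1 Q := by
    have := hL2 N657.QR.sq 0
    simp only [add_zero, ← pow_two] at this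
    exact this
  have hLP : ∀ k, L1 U w k M = L1 U w k P := by
    intro k
    unfold L1
    rw [sP]
    simp only [eP]
  have hLQ : ∀ k, L2 U w k M = L1 U w k Q := by
    intro k
    unfold L1 L2
    rw [sQ]
    simp only [eQ]
  have nP : sh M 0 0 = sh P 0 0 := eP 0
  have nQ : sh M 0 0 = sh Q 0 0 := eQ 0
  -- the crossing terms
  have hcross : ∀ a, 2 * sh M (dl a) (dl a) ≤ sh P (dl a) (dl a) + sh Q (dl a) (dl a)
      - 2 * η a * sh P (dl a) 0 + 2 * η a * sh Q (dl a) 0 + η a ^ 2 * sh M 0 0 := by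
    intro a
    have n1 : ∀ T : (A → ℤ) → (A → ℤ) → ℝ, sh T (-dl a) (-dl a) = sh T (dl a) (dl a) := fun T =>
      sh_neg T _ _
    have n2 : ∀ T : (A → ℤ) → (A → ℤ) → ℝ, sh T (-dl a) (dl a) = sh T (dl a) (-dl a) := by
      intro T
      rw [← sh_neg T (dl a) (-dl a), neg_neg]
    have n3 : ∀ T : (A → ℤ) → (A → ℤ) → ℝ, sh T (-dl a) 0 = sh T (dl a) 0 := by
      intro T
      rw [← sh_neg T (dl a) 0, neg_zero]
    have n4 : ∀ T : (A → ℤ) → (A → ℤ) → ℝ, sh T 0 (-dl a) = sh T 0 (dl a) := by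
      intro T
      rw [← sh_neg T 0 (dl a), neg_zero]
    have x1 := hX (ι := Fin 3) (fun i _ => ![1 / 2, 1 / 2, -(η a) / 2] i)
      (fun i _ => ![1 / 2, 1 / 2, η a / 2] i) ![dl a, -dl a, 0] ![dl a, -dl a, 0]
    have x2 := hX (ι := Fin 2) (fun i _ => ![1 / 2, -1 / 2] i)
      (fun i _ => ![1 / 2, -1 / 2] i) ![dl a, -dl a] ![dl a, -dl a]
    rw [cross hMf, cross hPf, cross hQf] at x1 x2
    simp only [Fin.sum_univ_three, Fin.sum_univ_two, Matrix.cons_val_zero, Matrix.cons_val_one,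
      Matrix.cons_val_two, Matrix.cons_val, Matrix.head_cons, Matrix.tail_cons, n1, n2, n3,
      n4] at x1 x2
    rw [eP, eQ, sh_swap hPs 0 (dl a), sh_swap hQs 0 (dl a), ← nP, ← nQ] at x1
    nlinarith [x1, x2]
  have hsum : (∑ a, κ a * sh M (dl a) (dl a)) ≤ (∑ a, κ a * sh P (dl a) (dl a)) / 2 +
      (∑ a, κ a * sh Q (dl a) (dl a)) / 2 - (∑ a, κ a * η a * sh P (dl a) 0) +
      (∑ a, κ a * η a * sh Q (dl a) 0) + (∑ a, κ a * η a ^ 2) / 2 * sh M 0 0 := by
    have h1 : (∑ a, κ a * sh P (dl a) (dl a)) / 2 +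
      (∑ a, κ a * sh Q (dl a) (dl a)) / 2 - (∑ a, κ a * η a * sh P (dl a) 0) +
      (∑ a, κ a * η a * sh Q (dl a) 0) + (∑ a, κ a * η a ^ 2) / 2 * sh M 0 0 =
      ∑ a, κ a * ((sh P (dl a) (dl a) + sh Q (dl a) (dl a)
      - 2 * η a * sh P (dl a) 0 + 2 * η a * sh Q (dl a) 0 + η a ^ 2 * sh M 0 0) / 2) := by
      rw [Finset.sum_div, Finset.sum_div, Finset.sum_div, Finset.sum_mul,
        ← Finset.sum_add_distrib, ← Finset.sum_sub_distrib, ← Finset.sum_add_distrib,
        ← Finset.sum_add_distrib]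
      refine Finset.sum_congr rfl fun a _ => ?_
      ring
    rw [h1]
    refine Finset.sum_le_sum fun a _ => mul_le_mul_of_nonneg_left ?_ (hκ a)
    have := hcross a
    linarith
  have kP := hE (ps P) (fs_ps hPf)
  have kQ := hE' (ps Q) (fs_ps hQf)
  rw [KK_ps hPf, L2_symm hPs, nr_ps, ← nP] at kP
  rw [KK_ps hQf, L2_symm hQs, nr_ps, ← nQ] at kQ
  rw [hψM, KK_ps hMf, nr_ps, hLP, hLQ]
  have l1 : L1 U w (fun a => (fun x : A × Bool => if x.2 then kt x.1 - κ x.1 * η x.1 else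
      kf x.1 + κ x.1 * η x.1) (a, false)) P = L1 U w (fun a => kf a) P -
        ∑ a, κ a * η a * sh P (dl a) 0 := by
    unfold L1
    simp only [Bool.false_eq_true, if_false, add_mul, Finset.sum_add_distrib]
    ring
  have l2 : L1 U w (fun a => (fun x : A × Bool => if x.2 then kt x.1 - κ x.1 * η x.1 else
      kf x.1 + κ x.1 * η x.1) (a, true)) Q = L1 U w (fun a => kt a) Q +
        ∑ a, κ a * η a * sh Q (dl a) 0 := by
    unfold L1
    simp only [if_true, sub_mul, Finset.sum_sub_distrib]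
    ring
  rw [l1, l2]
  simp only at kP kQ
  linarith

end Pool.Agent.N456.QR
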