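import Pool.Agent.N59.TT.Stm

/-!
# Project TT (helper59), part GE (subtask 7186), by helper456: groups which contain free groups of
rank two have exponential growth
-/

set_option autoImplicit false
set_option linter.all false

namespace Pool.Agent.N456.TT_GE

open scoped Pointwise
open Pool.Agent.N59.TT (F2 growth S_GE)

/-- the ball of radius one -/
abbrev B {G : Type} [Group G] (S : Finset G) : Set G := (S : Set G) ∪ (S : Set G)⁻¹ ∪ {1}

variable {G : Type} [Group G] (S : Finset G)

theorem one_mem_B : (1 : G) ∈ B S := Or.inr rfl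

theorem fin_B : (B S).Finite :=
  (S.finite_toSet.union S.finite_toSet.inv).union (Set.finite_singleton 1)

theorem inv_B : (B S)⁻¹ = B S := by
  unfold B
  rw [Set.union_inv, Set.union_inv, inv_inv, Set.inv_singleton, inv_one, Set.union_comm (S : Set G)⁻¹]

theorem mono_B {m n : ℕ} (h : m ≤ n) : B S ^ m ⊆ B S ^ n :=
  Set.pow_subset_pow_right (one_mem_B S) h

theorem exists_pow (hS : Subgroup.closure (S : Set G) = ⊤) (g : G) : ∃ k : ℕ, g ∈ B S ^ k := by
  have hg : g ∈ Subgroup.closure (S : Set G) := by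
    rw [hS]
    trivial
  induction hg using Subgroup.closure_induction with
  | mem x hx => exact ⟨1, by rw [pow_one]; exact Or.inl (Or.inl hx)⟩
  | one => exact ⟨0, by rw [pow_zero]; rfl⟩
  | mul x y _ _ hx hy =>
    obtain ⟨k, hk⟩ := hx
    obtain ⟨l, hl⟩ := hy
    exact ⟨k + l, by rw [pow_add]; exact Set.mul_mem_mul hk hl⟩
  | inv x _ hx =>
    obtain ⟨k, hk⟩ := hx
    refine ⟨k, ?_⟩
    rw [← inv_B S, inv_pow]
    exact Set.inv_mem_inv.2 hk

theorem fin_pow {A : Set G} (hA : A.Finite) (m : ℕ) : (A ^ m).Finite := by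
  induction m with
  | zero =>
    rw [pow_zero]
    exact Set.finite_singleton 1
  | succ m ih =>
    rw [pow_succ]
    exact ih.mul hA

/-- the positive words -/
def pw (L : List (Fin 2)) : FreeGroup (Fin 2) := FreeGroup.mk (L.map fun a => (a, true))

theorem pw_inj : Function.Injective pw := by
  intro L L' h
  have h1 : ∀ L : List (Fin 2), FreeGroup.IsReduced (L.map fun a => (a, true)) := by
    intro L
    unfold FreeGroup.IsReduced
    induction L with
    | nil => exact List.IsChain.nil
    | cons a L ih =>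
      cases L with
      | nil => exact List.IsChain.singleton _
      | cons b L => exact List.IsChain.cons_cons (fun _ => rfl) ih
  have h2 := congrArg FreeGroup.toWord h
  unfold pw at h2
  rw [FreeGroup.toWord_mk, FreeGroup.toWord_mk, (h1 L).reduce_eq, (h1 L').reduce_eq] at h2
  exact List.map_injective_iff.2 (fun a b hab => (Prod.mk.inj hab).1) h2

theorem pw_mem {A : Set G} (f : FreeGroup (Fin 2) →* G) (h : ∀ a, f (FreeGroup.of a) ∈ A)
    (L : List (Fin 2)) : f (pw L) ∈ A ^ L.length := by
  induction L with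
  | nil =>
    have : pw [] = 1 := rfl
    rw [this, map_one, List.length_nil, pow_zero]
    rfl
  | cons a L ih =>
    have h1 : pw (a :: L) = FreeGroup.of a * pw L := by
      unfold pw FreeGroup.of
      rw [FreeGroup.mul_mk]
      rfl
    rw [h1, map_mul, List.length_cons, pow_succ']
    exact Set.mul_mem_mul (h a) ih

theorem two_pow_le {A : Set G} (hA : A.Finite) (f : FreeGroup (Fin 2) →* G)
    (hf : Function.Injective f) (h : ∀ a, f (FreeGroup.of a) ∈ A) (m : ℕ) :
    2 ^ m ≤ (A ^ m).ncard := by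
  have h1 : Set.range (fun w : Fin m → Fin 2 => f (pw (List.ofFn w))) ⊆ A ^ m := by
    rintro _ ⟨w, rfl⟩
    have := pw_mem f h (List.ofFn w)
    rwa [List.length_ofFn] at this
  have hinj : Function.Injective (fun w : Fin m → Fin 2 => f (pw (List.ofFn w))) :=
    hf.comp (pw_inj.comp List.ofFn_injective)
  have h2 := Set.ncard_le_ncard h1 (fin_pow hA m)
  have h3 : (Set.range (fun w : Fin m → Fin 2 => f (pw (List.ofFn w)))).ncard = 2 ^ m := by
    rw [← Set.image_univ, Set.ncard_image_of_injective _ hinj, Set.ncard_univ, Nat.card_eq_fintype_card,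
      Fintype.card_fun, Fintype.card_fin, Fintype.card_fin]
  rw [← h3]
  exact h2

theorem ncard_pow_le (A : Set G) (m : ℕ) : (A ^ m).ncard ≤ A.ncard ^ m := by
  induction m with
  | zero =>
    rw [pow_zero, pow_zero]
    exact (Set.ncard_singleton (1 : G)).le
  | succ m ih =>
    rw [pow_succ, pow_succ]
    have h1 : (A ^ m * A).ncard ≤ (A ^ m).ncard * A.ncard := Set.natCard_mul_le
    exact h1.trans (Nat.mul_le_mul_right _ ih)

theorem main : S_GE := by
  intro G _ S hS hF
  obtain ⟨f, hf⟩ := hF
  have h1 : ∃ k : ℕ, 0 < k ∧ ∀ a : Fin 2, f (FreeGroup.of a) ∈ B S ^ k := by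
    choose k hk using fun a : Fin 2 => exists_pow S hS (f (FreeGroup.of a))
    refine ⟨k 0 + k 1 + 1, by omega, fun a => mono_B S ?_ (hk a)⟩
    fin_cases a
    · simp; omega
    · simp; omega
  obtain ⟨k, hk0, hk⟩ := h1
  have hkR : (0 : ℝ) < k := by exact_mod_cast hk0
  refine ⟨Real.log 2 / k, by positivity, fun n => ?_⟩
  have h2 : 2 ^ n ≤ (growth S n) ^ k := by
    have h3 := two_pow_le (fin_pow (fin_B S) k) f hf hk n
    rw [← pow_mul, mul_comm, pow_mul] at h3
    exact h3.trans (ncard_pow_le _ k)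
  have h3 : (Real.exp (Real.log 2 / k * n)) ^ k = 2 ^ n := by
    rw [← Real.exp_nat_mul]
    have e : (k : ℝ) * (Real.log 2 / k * n) = n * Real.log 2 := by field_simp
    rw [e, Real.exp_nat_mul, Real.exp_log (by norm_num)]
  have h4 : (Real.exp (Real.log 2 / k * n)) ^ k ≤ (growth S n : ℝ) ^ k := by
    rw [h3]
    exact_mod_cast h2
  exact (pow_le_pow_iff_left₀ (Real.exp_pos _).le (Nat.cast_nonneg _) (by omega)).1 h4

end Pool.Agent.N456.TT_GE
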